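import Mathlib

namespace Pool.Agent.Results.MP_c457a4_an.LinftySums

open Metric

/-- The slice `S(f, α)` of the closed unit ball. -/
def slice {𝕜 X : Type*} [RCLike 𝕜] [NormedAddCommGroup X] [NormedSpace 𝕜 X]
    (f : X →L[𝕜] 𝕜) (α : ℝ) : Set X :=
  {z : X | ‖z‖ ≤ 1 ∧ 1 - α < RCLike.re (f z)}

/-- `C` is a convex combination of slices of the closed unit ball of `X`. -/
def IsCCS (𝕜 : Type*) {X : Type*} [RCLike 𝕜] [NormedAddCommGroup X] [NormedSpace 𝕜 X]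
    (C : Set X) : Prop :=
  ∃ (n : ℕ) (l : Fin n → ℝ) (f : Fin n → (X →L[𝕜] 𝕜)) (α : Fin n → ℝ),
    (∀ i, 0 ≤ l i) ∧ ∑ i, l i = 1 ∧ (∀ i, ‖f i‖ = 1) ∧ (∀ i, 0 < α i) ∧
    C = {x : X | ∃ z : Fin n → X, (∀ i, z i ∈ slice (f i) (α i)) ∧ x = ∑ i, (l i : 𝕜) • z i}

/-- `x` has norm one and `sup {‖x - z‖ : z ∈ C} = 2` for every convex combination of slices `C`
of the closed unit ball that contains `x`. -/
def IsCCSDeltaPoint (𝕜 : Type*) {X : Type*} [RCLike 𝕜] [NormedAddCommGroup X] [NormedSpace 𝕜 X]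
    (x : X) : Prop :=
  ‖x‖ = 1 ∧ ∀ C : Set X, IsCCS 𝕜 C → x ∈ C → IsLUB {t : ℝ | ∃ z ∈ C, t = ‖x - z‖} 2

variable {𝕜 X Y Z : Type*} [RCLike 𝕜] [NormedAddCommGroup X] [NormedSpace 𝕜 X]
  [NormedAddCommGroup Y] [NormedSpace 𝕜 Y] [NormedAddCommGroup Z] [NormedSpace 𝕜 Z]

theorem norm_ccs_le {n : ℕ} {l : Fin n → ℝ} (hl : ∀ i, 0 ≤ l i) (hl1 : ∑ i, l i = 1)
    (z : Fin n → X) (hz : ∀ i, ‖z i‖ ≤ 1) : ‖∑ i, (l i : 𝕜) • z i‖ ≤ 1 := by
  calc ‖∑ i, (l i : 𝕜) • z i‖ ≤ ∑ i, ‖(l i : 𝕜) • z i‖ := norm_sum_le _ _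
    _ ≤ ∑ i, l i := by
        apply Finset.sum_le_sum
        intro i _
        rw [norm_smul, RCLike.norm_ofReal, abs_of_nonneg (hl i)]
        nlinarith [hl i, hz i]
    _ = 1 := hl1

/-- a slice of the ball through a point, below a functional that need not be normalized -/
theorem exists_slice (hX : ∃ x : X, ‖x‖ = 1) (g : X →L[𝕜] 𝕜) (c : ℝ) (u : X) (hu : ‖u‖ ≤ 1)
    (hgu : c < RCLike.re (g u)) :
    ∃ (f : X →L[𝕜] 𝕜) (α : ℝ), ‖f‖ = 1 ∧ 0 < α ∧ u ∈ slice f α ∧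
      ∀ v ∈ slice f α, c < RCLike.re (g v) := by
  by_cases hg : g = 0
  · obtain ⟨x, hx⟩ := hX
    obtain ⟨f, hf1, -⟩ := exists_dual_vector 𝕜 x (by rw [hx]; exact one_ne_zero)
    refine ⟨f, 3, hf1, by norm_num, ⟨hu, ?_⟩, ?_⟩
    · have h1 : ‖f u‖ ≤ 1 := by
        calc ‖f u‖ ≤ ‖f‖ * ‖u‖ := f.le_opNorm u
          _ ≤ 1 := by rw [hf1, one_mul]; exact hu
      have h2 := RCLike.abs_re_le_norm (f u)
      have h3 := abs_le.1 (h2.trans h1)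
      linarith [h3.1]
    · intro v _
      simpa [hg] using hgu
  · have hg0 : 0 < ‖g‖ := norm_pos_iff.2 hg
    have hlt : c / ‖g‖ < 1 := by
      rw [div_lt_one hg0]
      calc c < RCLike.re (g u) := hgu
        _ ≤ ‖g u‖ := RCLike.re_le_norm _
        _ ≤ ‖g‖ * ‖u‖ := g.le_opNorm u
        _ ≤ ‖g‖ := by nlinarith
    refine ⟨((‖g‖⁻¹ : ℝ) : 𝕜) • g, 1 - c / ‖g‖, ?_, by linarith, ⟨hu, ?_⟩, ?_⟩
    · rw [norm_smul, RCLike.norm_ofReal, abs_of_pos (inv_pos.2 hg0), inv_mul_cancel₀ hg0.ne']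
    · simp only [_root_.smul_apply, smul_eq_mul, RCLike.re_ofReal_mul]
      rw [show (1 : ℝ) - (1 - c / ‖g‖) = ‖g‖⁻¹ * c by ring]
      exact mul_lt_mul_of_pos_left hgu (inv_pos.2 hg0)
    · rintro v ⟨-, hv⟩
      simp only [_root_.smul_apply, smul_eq_mul, RCLike.re_ofReal_mul] at hv
      rw [show (1 : ℝ) - (1 - c / ‖g‖) = ‖g‖⁻¹ * c by ring] at hv
      exact lt_of_mul_lt_mul_left hv (inv_pos.2 hg0).le

theorem core (P : Z →L[𝕜] X) (J : X →L[𝕜] Z) (hPJ : ∀ u, P (J u) = u)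
    (hnorm : ∀ z, ‖z‖ = max ‖P z‖ ‖z - J (P z)‖) (z₀ : Z) (hz₀ : ‖z₀‖ ≤ 1)
    (h : IsCCSDeltaPoint 𝕜 (P z₀)) : IsCCSDeltaPoint 𝕜 z₀ := by
  have hP : ∀ z, ‖P z‖ ≤ ‖z‖ := fun z => by rw [hnorm z]; exact le_max_left _ _
  have hz₁ : ‖z₀‖ = 1 := le_antisymm hz₀ (by rw [← h.1]; exact hP z₀)
  refine ⟨hz₁, ?_⟩
  rintro C ⟨n, l, f, α, hl, hl1, hf, hα, rfl⟩ ⟨w, hw, hzw⟩
  refine ⟨?_, ?_⟩
  · rintro t ⟨z, ⟨v, hv, rfl⟩, rfl⟩
    have := norm_ccs_le (𝕜 := 𝕜) hl hl1 v (fun i => (hv i).1)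
    calc ‖z₀ - ∑ i, (l i : 𝕜) • v i‖ ≤ ‖z₀‖ + ‖∑ i, (l i : 𝕜) • v i‖ := norm_sub_le _ _
      _ ≤ 2 := by linarith
  · intro c hc
    -- slices in `X`
    have hex : ∀ i, ∃ (g : X →L[𝕜] 𝕜) (β : ℝ), ‖g‖ = 1 ∧ 0 < β ∧ P (w i) ∈ slice g β ∧
        ∀ v ∈ slice g β, 1 - α i - RCLike.re (f i (w i - J (P (w i)))) <
          RCLike.re (((f i).comp J) v) := by
      intro i
      apply exists_slice ⟨P z₀, h.1⟩ ((f i).comp J) _ (P (w i)) ((hP _).trans (hw i).1)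
      have h1 := (hw i).2
      have h2 : f i (w i) = f i (J (P (w i))) + f i (w i - J (P (w i))) := by
        rw [map_sub]; ring
      rw [h2, map_add] at h1
      simp only [ContinuousLinearMap.comp_apply]
      linarith
    choose g β hg hβ hmem himp using hex
    have hx := h.2 {x : X | ∃ z : Fin n → X, (∀ i, z i ∈ slice (g i) (β i)) ∧
        x = ∑ i, (l i : 𝕜) • z i} ⟨n, l, g, β, hl, hl1, hg, hβ, rfl⟩
        ⟨fun i => P (w i), hmem, by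
          conv_lhs => rw [hzw]
          rw [map_sum]
          exact Finset.sum_congr rfl fun i _ => by rw [map_smul]⟩
    apply hx.2
    rintro t ⟨x, ⟨v, hv, rfl⟩, rfl⟩
    -- lift
    let v' : Fin n → Z := fun i => J (v i) + (w i - J (P (w i)))
    have hPv' : ∀ i, P (v' i) = v i := by
      intro i
      simp only [v', map_add, map_sub, hPJ, sub_self, add_zero]
    have hv' : ∀ i, v' i ∈ slice (f i) (α i) := by
      intro i
      refine ⟨?_, ?_⟩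
      · rw [hnorm, hPv' i]
        have h1 : v' i - J (v i) = w i - J (P (w i)) := by simp only [v']; abel
        rw [h1]
        apply max_le (hv i).1
        exact (le_max_right _ _).trans ((hnorm (w i)).symm.le.trans (hw i).1)
      · have := himp i (v i) (hv i)
        simp only [ContinuousLinearMap.comp_apply] at this
        show 1 - α i < RCLike.re (f i (J (v i) + (w i - J (P (w i)))))
        rw [map_add, map_add]
        linarith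
    have hle : ‖z₀ - ∑ i, (l i : 𝕜) • v' i‖ ≤ c := hc ⟨_, ⟨v', hv', rfl⟩, rfl⟩
    refine le_trans ?_ hle
    have h3 : P (z₀ - ∑ i, (l i : 𝕜) • v' i) = P z₀ - ∑ i, (l i : 𝕜) • v i := by
      rw [map_sub, map_sum]
      congr 1
      exact Finset.sum_congr rfl fun i _ => by rw [map_smul, hPv']
    rw [← h3]
    exact hP _

theorem result (𝕜 X Y : Type*) [RCLike 𝕜] [NormedAddCommGroup X] [NormedSpace 𝕜 X]
    [CompleteSpace X] [NormedAddCommGroup Y] [NormedSpace 𝕜 Y] [CompleteSpace Y]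
    (x : X) (y : Y) (hx : IsCCSDeltaPoint 𝕜 x) (hy : IsCCSDeltaPoint 𝕜 y)
    (a b : ℝ) (ha0 : 0 ≤ a) (hb0 : 0 ≤ b) (hab : max a b = 1) :
    IsCCSDeltaPoint 𝕜 (((a : 𝕜) • x, (b : 𝕜) • y) : X × Y) := by
  have ha1 : a ≤ 1 := hab ▸ le_max_left a b
  have hb1 : b ≤ 1 := hab ▸ le_max_right a b
  have hn : ‖(((a : 𝕜) • x, (b : 𝕜) • y) : X × Y)‖ ≤ 1 := by
    rw [Prod.norm_def, norm_smul, norm_smul, hx.1, hy.1, RCLike.norm_ofReal, RCLike.norm_ofReal,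
      abs_of_nonneg ha0, abs_of_nonneg hb0]
    simp [ha1, hb1]
  rcases max_choice a b with h | h
  · have ha : a = 1 := by rw [← h, hab]
    apply core (ContinuousLinearMap.fst 𝕜 X Y) (ContinuousLinearMap.inl 𝕜 X Y)
      (fun u => rfl) _ _ hn
    · show IsCCSDeltaPoint 𝕜 ((a : 𝕜) • x)
      rw [ha]; simpa using hx
    · intro z
      rw [Prod.norm_def]
      simp [Prod.norm_def]
  · have hb : b = 1 := by rw [← h, hab]
    apply core (ContinuousLinearMap.snd 𝕜 X Y) (ContinuousLinearMap.inr 𝕜 X Y)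
      (fun u => rfl) _ _ hn
    · show IsCCSDeltaPoint 𝕜 ((b : 𝕜) • y)
      rw [hb]; simpa using hy
    · intro z
      rw [Prod.norm_def]
      simp [Prod.norm_def, max_comm]

end Pool.Agent.Results.MP_c457a4_an.LinftySums
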